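import Pool.Agent.Helper339.TopCat.Lower

/-!
The degree `𝟎′` of the halting problem is a noncomputable c.e. degree which is the degree of
topological categoricity of a computable Polish space, the countable discrete space.
-/

set_option autoImplicit false

namespace Pool.Agent.Results.MP_55a818_lc.ZeroJump

open Pool.Agent.Helper339.TopCat

theorem result :
    IsComputablePolish ℕ ∧ (deg Halt).IsCE ∧ deg Halt ≠ Degree.zero ∧
      IsDegreeOfCategoricity ℕ (deg Halt) := by
  refine ⟨⟨stdSpace, stdSpace_homeo⟩, ⟨Halt, halt_re, rfl⟩, fun h => ?_, fun M N hM hN => ?_,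
    fun a ha => ?_⟩
  · -- `𝟎′` is not computable
    have h1 : TLe Halt ∅ := (Quotient.exact h).1
    have h2 : Partrec (fun n => Part.some (chi Halt n)) := by
      refine RecursiveIn.partrec_of_const (s := Part.some 0) ?_
      have h3 : (fun n => Part.some (chi ∅ n)) = (fun _ : ℕ => Part.some 0) := by
        funext n
        simp [chi]
      unfold TLe TuringReducible at h1
      rwa [h3] at h1
    apply halt_not_computable
    refine ComputablePred.computable_iff.2 ⟨fun n => decide (chi Halt n = 1), ?_, ?_⟩
    · have h4 : Computable (chi Halt) := h2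
      have h5 : Computable (fun n : ℕ => decide (n = 1)) :=
        (Primrec.eq.decide.comp Primrec.id (Primrec.const 1)).to_comp
      exact h5.comp h4
    · funext n
      by_cases hn : n ∈ Halt <;> simp [chi, hn]
  · obtain ⟨f, c, hc⟩ := upper M N hM hN
    exact ⟨f, Halt, rfl, c, hc⟩
  · obtain ⟨f, A, hA, c, hc⟩ := ha pairSpace stdSpace pairSpace_homeo stdSpace_homeo
    rw [← hA]
    exact lower A c f hc

end Pool.Agent.Results.MP_55a818_lc.ZeroJump
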